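import Mathlib

/-!
# A strongly equistable graph that is not weakly CIS

Let `H` be the graph with the vertices `u₁, u₂, x₁, …, x₅`, the edges
`u₁x₁, u₁x₂, u₁x₃, u₂x₃, u₂x₄, u₂x₅, x₁x₄, x₂x₅` and a pendant edge at each of `x₁, …, x₅`, and let `G` be
the complement of the line graph of `H` (13 vertices).  As `H` has no triangles, the maximal stable sets
of `G` are the stars of the seven vertices `u₁, u₂, x₁, …, x₅` of `H`, and the maximal cliques of `G` are
the maximal matchings of `H`.

A non-edge covering family of maximal stable sets must contain all seven stars, since two edges of `H`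
with a common vertex lie in only one star.  A matching of `H` that contains `x₁x₄` and `x₂x₅` cannot meet
the stars of both `u₁` and `u₂`, since both could only be matched to `x₃`.  So `G` is not weakly CIS.

The weights are found by a computer search; their properties are verified for all subsets.
-/

set_option autoImplicit false
set_option maxRecDepth 100000

namespace Pool.Agent.Results.MP_59918e_co.NotWeaklyCIS

open Finset

/-- `S` is a maximal stable set of `G`. -/
def IsMaxStable {V : Type} (G : SimpleGraph V) (S : Finset V) : Prop :=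
  Maximal (fun T : Finset V => G.IsIndepSet (T : Set V)) S

/-- `K` is a maximal clique of `G`. -/
def IsMaxClique {V : Type} (G : SimpleGraph V) (K : Finset V) : Prop :=
  Maximal (fun T : Finset V => G.IsClique (T : Set V)) K

/-- `G` is equistable: there are nonnegative weights of the vertices such that a set of vertices is a
maximal stable set if and only if its total weight is `1`. -/
def Equistable {V : Type} (G : SimpleGraph V) : Prop :=
  ∃ φ : V → ℝ, (∀ v, 0 ≤ φ v) ∧ ∀ S : Finset V, IsMaxStable G S ↔ ∑ v ∈ S, φ v = 1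

/-- `G` is strongly equistable: for every nonempty set `T` of vertices that is not a maximal stable set
and every `c ≤ 1` there are positive weights of the vertices such that every maximal stable set has
total weight `1` and the total weight of `T` is not `c`. -/
def StronglyEquistable {V : Type} (G : SimpleGraph V) : Prop :=
  ∀ (T : Finset V) (c : ℝ), T.Nonempty → ¬ IsMaxStable G T → c ≤ 1 →
    ∃ φ : V → ℝ, (∀ v, 0 < φ v) ∧ (∀ S : Finset V, IsMaxStable G S → ∑ v ∈ S, φ v = 1) ∧
      ∑ v ∈ T, φ v ≠ c

/-- `G` is weakly CIS: there are a family `C` of maximal cliques such that every two adjacent vertices lie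
together in a member of `C`, and a family `D` of maximal stable sets such that every two distinct
non-adjacent vertices lie together in a member of `D`, such that every member of `C` meets every member
of `D`. -/
def WeaklyCIS {V : Type} [DecidableEq V] (G : SimpleGraph V) : Prop :=
  ∃ C D : Set (Finset V),
    (∀ K ∈ C, IsMaxClique G K) ∧ (∀ u v, G.Adj u v → ∃ K ∈ C, u ∈ K ∧ v ∈ K) ∧
    (∀ S ∈ D, IsMaxStable G S) ∧ (∀ u v, u ≠ v → ¬ G.Adj u v → ∃ S ∈ D, u ∈ S ∧ v ∈ S) ∧
    ∀ K ∈ C, ∀ S ∈ D, (K ∩ S).Nonempty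

/-! ### The graph -/

/-- Bit masks of the neighbourhoods in `G` of the 13 edges of `H`, which are numbered in the order
`u₁x₁, u₁x₂, u₁x₃, u₂x₃, u₂x₄, u₂x₅, x₁x₄, x₂x₅` and then the pendant edges. -/
def nb : List ℕ :=
  [7864, 7544, 7152, 7107, 6023, 3911, 5806, 3421, 7870, 7549, 7155, 6063, 3935]

/-- Adjacency in `G`. -/
def adjB (i j : ℕ) : Bool := Nat.testBit (nb.getD i 0) j

/-- The complement of the line graph of `H`. -/
def G : SimpleGraph (Fin 13) where
  Adj i j := adjB i j = true
  symm := ⟨by decide +kernel⟩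
  loopless := ⟨by decide +kernel⟩

/-- Bit masks of the stars of `u₁, u₂, x₁, …, x₅`. -/
def masks : List ℕ := [7, 56, 321, 642, 1036, 2128, 4256]

/-- The set given by a bit mask. -/
def setOf' (m : ℕ) : Finset (Fin 13) := univ.filter fun i => Nat.testBit m i = true

lemma mem_setOf' (m : ℕ) (i : Fin 13) : i ∈ setOf' m ↔ Nat.testBit m i = true := by
  simp [setOf']

/-- The stars of `u₁, u₂, x₁, …, x₅`. -/
def stars : List (Finset (Fin 13)) := masks.map setOf'

lemma stars_stable : ∀ m ∈ masks, ∀ i j : Fin 13, Nat.testBit m i = true →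
    Nat.testBit m j = true → adjB i j = false := by decide +kernel

lemma stars_maximal : ∀ m ∈ masks, ∀ i : Fin 13, Nat.testBit m i = false →
    ∃ j : Fin 13, Nat.testBit m j = true ∧ adjB i j = true := by decide +kernel

lemma star_of_pair : ∀ i j : Fin 13, i ≠ j → adjB i j = false →
    ∃ m ∈ masks, Nat.testBit m i = true ∧ Nat.testBit m j = true ∧
      ∀ k : Fin 13, adjB i k = false → adjB j k = false → Nat.testBit m k = true := by
  decide +kernel

lemma star_of_one : ∀ i : Fin 13, ∃ m ∈ masks, Nat.testBit m i = true := by decide +kernel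

lemma isMaxStable_of_mem {s : Finset (Fin 13)} (hs : s ∈ stars) : IsMaxStable G s := by
  obtain ⟨m, hm, rfl⟩ := List.mem_map.1 hs
  refine ⟨fun i hi j hj _ h => ?_, fun T hT hsT i hi => ?_⟩
  · have hi' : i ∈ setOf' m := hi
    have hj' : j ∈ setOf' m := hj
    rw [mem_setOf'] at hi' hj'
    have h1 := stars_stable m hm i j hi' hj'
    have h2 : adjB i j = true := h
    rw [h1] at h2
    exact Bool.false_ne_true h2
  · by_contra h
    rw [mem_setOf', Bool.not_eq_true] at h
    obtain ⟨j, hj, hij⟩ := stars_maximal m hm i h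
    have hadj : G.Adj i j := hij
    exact hT hi (hsT ((mem_setOf' m j).2 hj)) hadj.ne hadj

lemma isMaxStable_iff (S : Finset (Fin 13)) : IsMaxStable G S ↔ S ∈ stars := by
  refine ⟨fun hS => ?_, isMaxStable_of_mem⟩
  have hst : ∀ i ∈ S, ∀ j ∈ S, adjB i j = false := by
    intro i hi j hj
    by_contra h
    rw [Bool.not_eq_false] at h
    have h' : G.Adj i j := h
    exact hS.prop hi hj h'.ne h'
  have key : ∃ m ∈ masks, S ⊆ setOf' m := by
    by_cases h : ∃ i ∈ S, ∃ j ∈ S, i ≠ j
    · obtain ⟨i, hi, j, hj, hij⟩ := h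
      obtain ⟨m, hm, -, -, hk⟩ := star_of_pair i j hij (hst i hi j hj)
      exact ⟨m, hm, fun k hkS => (mem_setOf' m k).2 (hk k (hst i hi k hkS) (hst j hj k hkS))⟩
    · push Not at h
      rcases S.eq_empty_or_nonempty with h0 | ⟨i, hi⟩
      · obtain ⟨m, hm, -⟩ := star_of_one 0
        exact ⟨m, hm, h0 ▸ Finset.empty_subset _⟩
      · obtain ⟨m, hm, him⟩ := star_of_one i
        exact ⟨m, hm, fun j hj => (h i hi j hj) ▸ (mem_setOf' m i).2 him⟩
  obtain ⟨m, hm, hSs⟩ := key
  have hs : setOf' m ∈ stars := List.mem_map.2 ⟨m, hm, rfl⟩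
  have hle : setOf' m ⊆ S := hS.2 (isMaxStable_of_mem hs).prop hSs
  rw [Finset.Subset.antisymm hSs hle]
  exact hs

/-! ### The weights -/

/-- The first weighting. -/
def l0 : List ℕ := [35, 34, 21, 17, 31, 42, 9, 11, 46, 45, 52, 50, 37]

/-- Seven weightings for which every star has weight `90`. -/
def W : List (List ℕ) :=
  [l0,
   [36, 34, 20, 17, 31, 42, 9, 11, 45, 45, 53, 50, 37],
   [35, 35, 20, 17, 31, 42, 9, 11, 46, 44, 53, 50, 37],
   [35, 34, 21, 18, 31, 41, 9, 11, 46, 45, 51, 50, 38],
   [35, 34, 21, 17, 32, 41, 9, 11, 46, 45, 52, 49, 38],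
   [35, 34, 21, 17, 31, 42, 10, 11, 45, 45, 52, 49, 37],
   [35, 34, 21, 17, 31, 42, 9, 12, 46, 44, 52, 50, 36]]

/-- The sum of the entries of a list over the positions marked by another list. -/
def sm : List ℕ → List Bool → ℕ
  | [], _ => 0
  | _, [] => 0
  | a :: l, b :: m => bif b then a + sm l m else sm l m

/-- The indicator list of a mask. -/
def indM (m : ℕ) : List Bool := (List.range 13).map fun i => Nat.testBit m i

/-- The indicator list of a set. -/
def ind (S : Finset (Fin 13)) : List Bool := (List.finRange 13).map fun i => decide (i ∈ S)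

/-- The indicator lists of the stars. -/
def starB : List (List Bool) := masks.map indM

/-- The check of one subset of weight `s`. -/
def chk (T : List Bool) (s : ℕ) : Bool :=
  (s != 90 || starB.contains T) &&
    (W.any (fun l => sm l T != s) || T.all (fun b => !b) || starB.contains T)

/-- The check of all subsets of weight at most `90` which extend the initial part `p` of weight `s`. -/
def go : List ℕ → List Bool → ℕ → Bool
  | [], p, s => chk p s
  | a :: l, p, s => Nat.blt 90 s || (go l (p ++ [false]) s && go l (p ++ [true]) (s + a))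

theorem brute : go l0 [] 0 = true := by decide +kernel

lemma go_spec (l : List ℕ) : ∀ (p : List Bool) (s : ℕ) (T : List Bool), go l p s = true →
    T.length = l.length → s + sm l T ≤ 90 → chk (p ++ T) (s + sm l T) = true := by
  induction l with
  | nil =>
    intro p s T h hT hs
    rw [List.length_nil, List.length_eq_zero_iff] at hT
    subst hT
    rw [List.append_nil]
    exact h
  | cons a l ih =>
    intro p s T h hT hs
    match T, hT with
    | b :: T, hT =>
      have hle : s ≤ 90 := le_trans (Nat.le_add_right _ _) hs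
      unfold go at h
      rw [Bool.or_eq_true, Bool.and_eq_true] at h
      rcases h with h | ⟨h1, h2⟩
      · exact absurd (Nat.blt_eq.mp h) (not_lt.2 hle)
      · have hT' : T.length = l.length := by simpa using hT
        cases b with
        | false =>
          have e : sm (a :: l) (false :: T) = sm l T := rfl
          rw [e] at hs ⊢
          have := ih (p ++ [false]) s T h1 hT' hs
          rwa [List.append_assoc] at this
        | true =>
          have e : sm (a :: l) (true :: T) = a + sm l T := rfl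
          rw [e, ← add_assoc] at hs ⊢
          have := ih (p ++ [true]) (s + a) T h2 hT' hs
          rwa [List.append_assoc] at this

lemma sm_ind (l : List ℕ) (S : Finset (Fin 13)) (hl : l.length = 13) :
    sm l (ind S) = ∑ i ∈ S, l.getD i 0 := by
  match l, hl with
  | [a0, a1, a2, a3, a4, a5, a6, a7, a8, a9, a10, a11, a12], _ =>
    have h : ∑ i ∈ S, [a0, a1, a2, a3, a4, a5, a6, a7, a8, a9, a10, a11, a12].getD i 0 =
        ∑ i : Fin 13, if i ∈ S then
          [a0, a1, a2, a3, a4, a5, a6, a7, a8, a9, a10, a11, a12].getD i 0 else 0 := by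
      rw [← Finset.sum_filter]
      congr 1
      ext i
      simp
    rw [h]
    have h2 : ∀ (a : ℕ) (b : Bool) (l : List ℕ) (m : List Bool),
        sm (a :: l) (b :: m) = (if b = true then a else 0) + sm l m := by
      intro a b l m
      cases b <;> simp [sm]
    have h3 : ind S = [decide (0 ∈ S), decide (1 ∈ S), decide (2 ∈ S), decide (3 ∈ S),
        decide (4 ∈ S), decide (5 ∈ S), decide (6 ∈ S), decide (7 ∈ S), decide (8 ∈ S),
        decide (9 ∈ S), decide (10 ∈ S), decide (11 ∈ S), decide (12 ∈ S)] := rfl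
    rw [h3]
    simp only [h2, decide_eq_true_eq]
    simp only [Fin.sum_univ_succ, Fin.sum_univ_zero]
    rfl

lemma mem_stars_of {S : Finset (Fin 13)} (h : starB.contains (ind S) = true) : S ∈ stars := by
  rw [List.contains_iff_mem] at h
  obtain ⟨m, hm, hmS⟩ := List.mem_map.1 h
  refine List.mem_map.2 ⟨m, hm, ?_⟩
  have hm2 : indM m = (List.finRange 13).map fun i : Fin 13 => Nat.testBit m (i : ℕ) := rfl
  rw [hm2] at hmS
  ext i
  have h1 := List.map_inj_left.1 hmS i (List.mem_finRange i)
  rw [mem_setOf', h1]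
  simp

lemma W_length : ∀ l ∈ W, l.length = 13 := by decide

lemma W_pos : ∀ l ∈ W, ∀ i : Fin 13, 0 < l.getD i 0 := by decide +kernel

lemma W_star' : ∀ l ∈ W, ∀ m ∈ masks, sm l (indM m) = 90 := by decide +kernel

lemma W_star (l : List ℕ) (hl : l ∈ W) (s : Finset (Fin 13)) (hs : s ∈ stars) :
    ∑ i ∈ s, l.getD i 0 = 90 := by
  obtain ⟨m, hm, rfl⟩ := List.mem_map.1 hs
  rw [← sm_ind l _ (W_length l hl), ← W_star' l hl m hm]
  congr 1
  have hm2 : indM m = (List.finRange 13).map fun i : Fin 13 => Nat.testBit m (i : ℕ) := rfl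
  rw [hm2]
  unfold ind
  refine List.map_congr_left fun i _ => ?_
  rw [Bool.eq_iff_iff, decide_eq_true_iff, mem_setOf']

/-- The real weighting given by a list. -/
noncomputable def φ (l : List ℕ) (i : Fin 13) : ℝ := (l.getD i 0 : ℝ) / 90

lemma sum_φ (l : List ℕ) (S : Finset (Fin 13)) :
    ∑ i ∈ S, φ l i = ((∑ i ∈ S, l.getD i 0 : ℕ) : ℝ) / 90 := by
  unfold φ
  rw [← Finset.sum_div]
  push_cast
  rfl

lemma φ_pos {l : List ℕ} (hl : l ∈ W) (i : Fin 13) : 0 < φ l i := by
  have h : (0 : ℝ) < (l.getD i 0 : ℝ) := by exact_mod_cast W_pos l hl i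
  unfold φ
  positivity

lemma φ_star {l : List ℕ} (hl : l ∈ W) {S : Finset (Fin 13)} (hS : S ∈ stars) :
    ∑ i ∈ S, φ l i = 1 := by
  rw [sum_φ, W_star l hl S hS]
  norm_num

lemma l0_mem : l0 ∈ W := List.mem_cons_self

lemma chk_spec (S : Finset (Fin 13)) : 90 < ∑ i ∈ S, l0.getD i 0 ∨
    ((∑ i ∈ S, l0.getD i 0 = 90 → S ∈ stars) ∧
      (S ∈ stars ∨ S = ∅ ∨ ∃ l ∈ W, ∑ i ∈ S, l.getD i 0 ≠ ∑ i ∈ S, l0.getD i 0)) := by
  rw [← sm_ind l0 S (W_length _ l0_mem)]
  by_cases hle : 90 < sm l0 (ind S)
  · exact Or.inl hle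
  · right
    have h := go_spec l0 [] 0 (ind S) brute (by simp [ind, l0]) (by omega)
    rw [List.nil_append, zero_add] at h
    unfold chk at h
    rw [Bool.and_eq_true, Bool.or_eq_true, Bool.or_eq_true, Bool.or_eq_true] at h
    obtain ⟨h1, h2⟩ := h
    constructor
    · intro he
      rcases h1 with h1 | h1
      · exact absurd he (by simpa using h1)
      · exact mem_stars_of h1
    · rcases h2 with (h2 | h2) | h2
      · right; right
        rw [List.any_eq_true] at h2
        obtain ⟨l, hl, hne⟩ := h2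
        refine ⟨l, hl, ?_⟩
        rw [sm_ind l S (W_length l hl)] at hne
        simpa using hne
      · right; left
        rw [Finset.eq_empty_iff_forall_notMem]
        intro i hi
        rw [List.all_eq_true] at h2
        have h3 := h2 _ (List.mem_map.2 ⟨i, List.mem_finRange i, rfl⟩)
        simp [hi] at h3
      · exact Or.inl (mem_stars_of h2)

theorem equistable : Equistable G := by
  refine ⟨φ l0, fun i => (φ_pos l0_mem i).le, fun S => ?_⟩
  rw [isMaxStable_iff]
  refine ⟨fun hS => φ_star l0_mem hS, fun h => ?_⟩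
  rw [sum_φ, div_eq_one_iff_eq (by norm_num)] at h
  have h' : ∑ i ∈ S, l0.getD i 0 = 90 := by exact_mod_cast h
  rcases chk_spec S with h1 | ⟨h1, -⟩
  · omega
  · exact h1 h'

theorem stronglyEquistable : StronglyEquistable G := by
  intro T c hT hns hc
  rw [isMaxStable_iff] at hns
  by_cases h0 : ∑ v ∈ T, φ l0 v = c
  · rcases chk_spec T with h1 | ⟨-, h1⟩
    · exfalso
      rw [sum_φ] at h0
      have h2 : (90 : ℝ) < ((∑ i ∈ T, l0.getD i 0 : ℕ) : ℝ) := by exact_mod_cast h1
      rw [div_eq_iff (by norm_num)] at h0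
      linarith
    · rcases h1 with h1 | h1 | ⟨l, hl, hne⟩
      · exact absurd h1 hns
      · exact absurd h1 hT.ne_empty
      · refine ⟨φ l, fun i => φ_pos hl i, fun S hS => φ_star hl ((isMaxStable_iff S).1 hS), ?_⟩
        rw [← h0, sum_φ, sum_φ]
        intro he
        rw [div_left_inj' (by norm_num)] at he
        exact hne (by exact_mod_cast he)
  · exact ⟨φ l0, fun i => φ_pos l0_mem i, fun S hS => φ_star l0_mem ((isMaxStable_iff S).1 hS), h0⟩

lemma mask_unique1 : ∀ m ∈ masks, Nat.testBit m 0 = true → Nat.testBit m 1 = true → m = 7 := by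
  decide +kernel

lemma mask_unique2 : ∀ m ∈ masks, Nat.testBit m 3 = true → Nat.testBit m 4 = true → m = 56 := by
  decide +kernel

lemma no_match : ∀ i j : Fin 13, Nat.testBit 7 i = true → Nat.testBit 56 j = true →
    i ≠ 6 ∧ i ≠ 7 ∧ j ≠ 6 ∧ j ≠ 7 ∧ i ≠ j ∧
      (adjB i 6 = true → adjB i 7 = true → adjB j 6 = true → adjB j 7 = true →
        adjB i j = false) := by decide +kernel

theorem not_weaklyCIS : ¬ WeaklyCIS G := by
  rintro ⟨C, D, hC, hCe, hD, hDe, hCD⟩
  -- the stars of `u₁` and `u₂` belong to `D`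
  have star1 : setOf' 7 ∈ D := by
    obtain ⟨S, hS, h0, h1⟩ := hDe 0 1 (by decide)
      (fun h => Bool.false_ne_true (stars_stable 7 (by simp [masks]) 0 1 (by decide) (by decide) ▸ h))
    obtain ⟨m, hm, rfl⟩ := List.mem_map.1 ((isMaxStable_iff S).1 (hD S hS))
    rw [mem_setOf'] at h0 h1
    rwa [mask_unique1 m hm h0 h1] at hS
  have star2 : setOf' 56 ∈ D := by
    obtain ⟨S, hS, h0, h1⟩ := hDe 3 4 (by decide)
      (fun h => Bool.false_ne_true (stars_stable 56 (by simp [masks]) 3 4 (by decide) (by decide) ▸ h))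
    obtain ⟨m, hm, rfl⟩ := List.mem_map.1 ((isMaxStable_iff S).1 (hD S hS))
    rw [mem_setOf'] at h0 h1
    rwa [mask_unique2 m hm h0 h1] at hS
  -- a clique that contains the edges `x₁x₄` and `x₂x₅`
  have h67 : adjB 6 7 = true := by decide +kernel
  obtain ⟨K, hK, h6, h7⟩ := hCe 6 7 h67
  obtain ⟨i, hi⟩ := hCD K hK _ star1
  obtain ⟨j, hj⟩ := hCD K hK _ star2
  rw [Finset.mem_inter, mem_setOf'] at hi hj
  have hcl : ∀ a ∈ K, ∀ b ∈ K, a ≠ b → adjB a b = true :=
    fun a ha b hb hab => (hC K hK).prop ha hb hab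
  obtain ⟨n1, n2, n3, n4, n5, hno⟩ := no_match i j hi.2 hj.2
  have hf := hno (hcl i hi.1 6 h6 n1) (hcl i hi.1 7 h7 n2) (hcl j hj.1 6 h6 n3)
    (hcl j hj.1 7 h7 n4)
  rw [hcl i hi.1 j hj.1 n5] at hf
  exact Bool.false_ne_true hf.symm

/-- There is a graph with 13 vertices that is equistable, and even strongly equistable, but not weakly
CIS. -/
theorem result : ∃ G : SimpleGraph (Fin 13),
    Equistable G ∧ StronglyEquistable G ∧ ¬ WeaklyCIS G :=
  ⟨G, equistable, stronglyEquistable, not_weaklyCIS⟩

end Pool.Agent.Results.MP_59918e_co.NotWeaklyCIS
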